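import Mathlib

set_option autoImplicit false

namespace Pool.Agent.Results.MP_ab03e0_co.Order17

/-- quasigroup operation -/
def IsQG {S : Type} (m : S → S → S) : Prop := ∀ a b, (∃! x, m a x = b) ∧ ∃! x, m x a = b

def row : ZMod 17 → ZMod 17 := fun d =>
  ([0, 13, 9, 12, 1, 3, 7, 11, 2, 15, 6, 10, 14, 16, 5, 8, 4] : List (ZMod 17)).getD d.val 0

theorem result : ∃ m : Fin 17 → Fin 17 → Fin 17, IsQG m ∧ ∀ x y, m (m x y) y = m x (m x y) := by
  refine ⟨fun x y : ZMod 17 => x + row (y - x), ?_, ?_⟩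
  · unfold IsQG ExistsUnique; decide +kernel
  · decide +kernel

end Pool.Agent.Results.MP_ab03e0_co.Order17
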