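import Mathlib

set_option autoImplicit false

namespace Pool.Agent.Results.MP_ab03e0_co.Parity

/-- quasigroup operation -/
def IsQG {S : Type} (m : S → S → S) : Prop := ∀ a b, (∃! x, m a x = b) ∧ ∃! x, m x a = b

theorem result (S : Type) [Finite S] (m : S → S → S) (h : IsQG m)
    (hid : ∀ x y, m (m x y) y = m x (m x y)) : Nat.card S % 4 = 0 ∨ Nat.card S % 4 = 1 := by
  classical
  have := Fintype.ofFinite S
  let A : Equiv.Perm (S × S) := Equiv.ofBijective (fun p => (p.1, m p.1 p.2))
    (Finite.injective_iff_bijective.1 (by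
      rintro ⟨a, b⟩ ⟨c, d⟩ he
      obtain ⟨rfl, h2⟩ := Prod.mk.inj he
      exact Prod.ext rfl ((h a _).1.unique h2 rfl)))
  let B : Equiv.Perm (S × S) := Equiv.ofBijective (fun p => (m p.1 p.2, p.2))
    (Finite.injective_iff_bijective.1 (by
      rintro ⟨a, b⟩ ⟨c, d⟩ he
      obtain ⟨h2, rfl⟩ := Prod.mk.inj he
      exact Prod.ext ((h b _).2.unique h2 rfl) rfl))
  let T : Equiv.Perm (S × S) := Equiv.prodComm S S
  have e : A * B = T * (B * A) := by
    ext p
    · rfl
    · exact hid _ _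
  have hs : Equiv.Perm.sign T = 1 := by
    have := congrArg Equiv.Perm.sign e
    rw [map_mul, map_mul, map_mul, mul_comm (Equiv.Perm.sign B)] at this
    exact (right_eq_mul.1 this)
  have hT : T ^ 2 = 1 := by ext p <;> rfl
  rw [Equiv.Perm.sign_of_pow_two_eq_one hT] at hs
  have hf : Fintype.card (Function.fixedPoints T) = Fintype.card S := by
    refine Fintype.card_congr ⟨fun p => p.1.1, fun a => ⟨(a, a), rfl⟩, ?_, fun _ => rfl⟩
    rintro ⟨⟨a, b⟩, hp⟩
    have : b = a := (Prod.mk.inj hp).1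
    subst this; rfl
  rw [hf, Fintype.card_prod] at hs
  have he : Even ((Fintype.card S * Fintype.card S - Fintype.card S) / 2) :=
    (neg_one_pow_eq_one_iff_even (by decide)).1 hs
  rw [Nat.card_eq_fintype_card]
  generalize Fintype.card S = n at he
  obtain ⟨k, hk⟩ := he
  obtain ⟨q, r, hr, rfl⟩ : ∃ q r, r < 4 ∧ n = 4 * q + r :=
    ⟨n / 4, n % 4, Nat.mod_lt _ (by norm_num), (Nat.div_add_mod n 4).symm⟩
  interval_cases r
  · omega
  · omega
  · have : (4 * q + 2) * (4 * q + 2) = 16 * (q * q) + 16 * q + 4 := by ring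
    omega
  · have : (4 * q + 3) * (4 * q + 3) = 16 * (q * q) + 24 * q + 9 := by ring
    omega

end Pool.Agent.Results.MP_ab03e0_co.Parity
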